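import Pool.Agent.H831G.Defs3
import Pool.Agent.H831G.G8
import Pool.Agent.H831G.G9
import Pool.Agent.H831G.K21

/-!
# Ordered Ramsey goodness is inherited by connected ordered subgraphs (MP_23a060_co, Q1)

Ordered graphs are simple graphs on `Fin k` with the natural order.  The definitions
`RamseyArrow`, `orderedRamsey`, `IsGood` and `OrderedSubgraph` are in `Pool.Agent.H831G.Defs3`.

The proof shows that an ordered graph without inner cut vertex (no vertex `c` such that no edge
jumps over `c`) is 3-good only if it is a star centred at its first or last vertex or a double star
whose centres are adjacent in the order; that joins at a common end vertex preserve and reflect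
goodness; and that the double stars with two centres of degree at least 2 are 3-good but not 4-good.
-/

set_option autoImplicit false

namespace Pool.Agent.Results.MP_23a060_co.GoodHeredity

open Pool.Agent.H831G

/-- For every positive `n`, every connected ordered subgraph `H` of an `n`-good ordered graph `G`
is `n`-good. -/
theorem result (n : ℕ) (hn : 0 < n) {k k' : ℕ} (G : SimpleGraph (Fin k))
    (H : SimpleGraph (Fin k')) (hG : IsGood n G) (hH : H.Connected) (hHG : OrderedSubgraph H G) :
    IsGood n H :=
  final_of
    (fun h1 h2 h3 c g c' f hf => heredity_of structure_N2 h1 h2 h3 c g c' f hf)
    n hn G H hG hH hHG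

end Pool.Agent.Results.MP_23a060_co.GoodHeredity
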